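import Pool.Agent.Run7.h30.DB.Hilb

/-!
# The cohomology of the Du Bois complex of the general linear sections of a projective scheme

Let `R` be a standard graded algebra over a field `K` of characteristic zero, `d = dim R`,
`X = Proj R`, let `θ 0, θ 1, …` be general linear forms and let `X_k` be the intersection of `X` with
the hyperplanes `θ 0 = … = θ (k - 1) = 0`. We record, in the form of exact sequences of vector spaces,
the relations between the local cohomology of `R / (θ 0, …, θ (k - 1))`, the cohomology of `O_X(n)`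
and the cohomology of the twists of the Du Bois complexes `Ω⁰` of the `X_k`, and the theorems about
them which are used below.
-/

set_option autoImplicit false

universe u v w w'

namespace Run7.h30.DB

section Local

variable (A : Type u) [CommRing A]

/-- `depth A_p ≥ n`: the maximal ideal of `A_p` contains a regular sequence of length `n`. -/
def DepthGE (p : PrimeSpectrum A) (n : ℕ) : Prop :=
  ∃ rs : List (Localization.AtPrime p.asIdeal), rs.length = n ∧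
    (∀ a ∈ rs, a ∈ IsLocalRing.maximalIdeal (Localization.AtPrime p.asIdeal)) ∧
    RingTheory.Sequence.IsWeaklyRegular (Localization.AtPrime p.asIdeal) rs

/-- Serre's condition `(S_r)`: `depth A_p ≥ min (r, dim A_p)` for all primes `p`. -/
def SerreCondition (r : ℕ) : Prop :=
  ∀ p : PrimeSpectrum A, ∀ n : ℕ, n ≤ r → (n : ℕ∞) ≤ p.asIdeal.height → DepthGE A p n

end Local

/-- Linear maps. -/
abbrev Lin {K : Type u} [Field K] (A : ModuleCat.{v} K) (B : ModuleCat.{w} K) : Type (max v w) :=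
  A →ₗ[K] B

/-- The sequence `A → B → C` is exact. -/
def Ex {K : Type u} [Field K] {A : ModuleCat.{v} K} {B : ModuleCat.{w} K} {C : ModuleCat.{w'} K}
    (f : Lin A B) (g : Lin B C) : Prop :=
  Function.Exact f g

/-- The composition of `f` and `g` is `e`. -/
def Comp {K : Type u} [Field K] {A : ModuleCat.{v} K} {B : ModuleCat.{w} K} {C : ModuleCat.{w'} K}
    (f : Lin A B) (g : Lin B C) (e : Lin A C) : Prop :=
  ∀ x, g (f x) = e x

/-- `f` is injective. -/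
def Inj {K : Type u} [Field K] {A : ModuleCat.{v} K} {B : ModuleCat.{w} K} (f : Lin A B) : Prop :=
  Function.Injective f

/-- Vector spaces `H i k n` and exact sequences
`H i k n → H i k (n+1) → H i (k+1) (n+1) → H (i+1) k n → H (i+1) k (n+1)`. -/
structure Tower (K : Type u) [Field K] where
  H : ℕ → ℕ → ℤ → ModuleCat.{v} K
  mul : ∀ (i k : ℕ) {n m : ℤ}, n + 1 = m → Lin (H i k n) (H i k m)
  res : ∀ (i k : ℕ) (n : ℤ), Lin (H i k n) (H i (k + 1) n)
  δ : ∀ (i k : ℕ) {n m : ℤ}, n + 1 = m → Lin (H i (k + 1) m) (H (i + 1) k n)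
  exact_res : ∀ (i k : ℕ) {n m : ℤ} (h : n + 1 = m), Ex (mul i k h) (res i k m)
  exact_δ : ∀ (i k : ℕ) {n m : ℤ} (h : n + 1 = m), Ex (res i k m) (δ i k h)
  exact_mul : ∀ (i k : ℕ) {n m : ℤ} (h : n + 1 = m), Ex (δ i k h) (mul (i + 1) k h)

/-- Vector spaces `F i n` and exact sequences `F i n → A i n → B i n → F (i+1) n → A (i+1) n`. -/
structure Fibre {K : Type u} [Field K] (A B : ℕ → ℤ → ModuleCat.{v} K) where
  F : ℕ → ℤ → ModuleCat.{v} K
  f : ∀ (i : ℕ) (n : ℤ), Lin (F i n) (A i n)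
  g : ∀ (i : ℕ) (n : ℤ), Lin (A i n) (B i n)
  h : ∀ (i : ℕ) (n : ℤ), Lin (B i n) (F (i + 1) n)
  exact_g : ∀ i n, Ex (f i n) (g i n)
  exact_h : ∀ i n, Ex (g i n) (h i n)
  exact_f : ∀ i n, Ex (h i n) (f (i + 1) n)

variable {K : Type u} [Field K] {R : Type u} [CommRing R] [Algebra K R]

/-- `p` is a point of `X_k`: a homogeneous prime of `R / (θ 0, …, θ (k - 1))` which does not contain
all linear forms. -/
def IsPoint (𝒜 : ℕ → Submodule K R) [GradedAlgebra 𝒜] (θ : ℕ → R) (k : ℕ)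
    (p : PrimeSpectrum (R ⧸ firstIdeal θ k)) : Prop :=
  (p.asIdeal.comap (Ideal.Quotient.mk (firstIdeal θ k))).IsHomogeneous 𝒜 ∧
    ∃ x ∈ 𝒜 1, Ideal.Quotient.mk (firstIdeal θ k) x ∉ p.asIdeal

/-- Properties of general linear forms: they are linearly independent as long as possible, almost
regular (the kernel of `θ k` on `R / (θ 0, …, θ (k - 1))` is killed by a power of the maximal ideal),
and the theorem of Bertini holds: if `R` is `(S_s)`, the linear sections `X_k` are `(S_s)`. If `R`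
is `(S_2)` it is equidimensional, and the `X_k` are equidimensional of dimension `d - 1 - k`. -/
structure GeneralForms (𝒜 : ℕ → Submodule K R) [GradedAlgebra 𝒜] (d : ℕ) (θ : ℕ → R) : Prop where
  mem : ∀ k, θ k ∈ 𝒜 1
  new : ∀ k < d, θ k ∉ firstIdeal θ k
  almost : ∀ k n, ∀ x ∈ 𝒜 n, θ k * x ∈ firstIdeal θ k → ∃ N, ∀ y ∈ 𝒜 N, y * x ∈ firstIdeal θ k
  bertini : ∀ s : ℕ, SerreCondition R s → ∀ (k : ℕ) (p : PrimeSpectrum (R ⧸ firstIdeal θ k)),
    IsPoint 𝒜 θ k p → ∀ n : ℕ, n ≤ s → (n : ℕ∞) ≤ p.asIdeal.height →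
      DepthGE (R ⧸ firstIdeal θ k) p n
  equidim : SerreCondition R 2 → ∀ (k : ℕ) (p : PrimeSpectrum (R ⧸ firstIdeal θ k)),
    IsPoint 𝒜 θ k p → ∀ e : ℕ, ringKrullDim ((R ⧸ firstIdeal θ k) ⧸ p.asIdeal) = (e + 1 : ℕ) →
      p.asIdeal.height + (e + 1 + k : ℕ) = d

/-- The local cohomology `H i k n = H^i_𝔪(R / (θ 0, …, θ (k - 1)))_n`, with the long exact sequences
given by multiplication by `θ k`. The group `H^0` consists of the elements which are killed by a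
power of the maximal ideal, and `H^i_𝔪(R) = 0` for `i < depth R_𝔪`, where `dim R_𝔪 = d`. -/
structure LocalCohomology (𝒜 : ℕ → Submodule K R) [GradedAlgebra 𝒜] (d : ℕ) (θ : ℕ → R)
    extends Tower.{u, v} K where
  torsion : ∀ k n : ℕ, Subsingleton (H 0 k n) → ∀ x ∈ 𝒜 n,
    (∃ N, ∀ y ∈ 𝒜 N, y * x ∈ firstIdeal θ k) → x ∈ firstIdeal θ k
  vertex : ∃ m : PrimeSpectrum R, m.asIdeal = (HomogeneousIdeal.irrelevant 𝒜).toIdeal ∧
    m.asIdeal.height = d ∧ ∀ i n, DepthGE R m (i + 1) → Subsingleton (H i 0 n)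

/-- The piece `R_n` of degree `n`. -/
abbrev Deg (𝒜 : ℕ → Submodule K R) (n : ℕ) : ModuleCat.{u} K := ModuleCat.of K (𝒜 n)

/-- `b (t x) = c (a x)` for all `x` in `R_n` with `t x` in `R_m`. -/
def MulComm {𝒜 : ℕ → Submodule K R} {n m : ℕ} {A B : ModuleCat.{v} K} (t : R)
    (a : Lin (Deg 𝒜 n) A) (b : Lin (Deg 𝒜 m) B) (c : Lin A B) : Prop :=
  ∀ (x : 𝒜 n) (y : 𝒜 m), (y : R) = t * x → b y = c (a x)

/-- Exact sequences `H0 n → R_n → O0 n → H1 n` for `n ≥ 0`. -/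
structure Sections (𝒜 : ℕ → Submodule K R) (H0 H1 O0 : ℤ → ModuleCat.{v} K) where
  ι : ∀ n : ℕ, Lin (H0 n) (Deg 𝒜 n)
  ε : ∀ n : ℕ, Lin (Deg 𝒜 n) (O0 n)
  κ : ∀ n : ℕ, Lin (O0 n) (H1 n)
  exact_ε : ∀ n : ℕ, Ex (ι n) (ε n)
  exact_κ : ∀ n : ℕ, Ex (ε n) (κ n)

/-- Maps `R_n → H 0 k n`, compatible with the restriction maps, such that multiplication by `θ k` on
`R` corresponds to the maps `H 0 k n → H 0 k (n+1)`. -/
structure Restriction (𝒜 : ℕ → Submodule K R) (θ : ℕ → R) (W : Tower.{u, v} K) where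
  ρ : ∀ k n : ℕ, Lin (Deg 𝒜 n) (W.H 0 k n)
  ρ_succ : ∀ k n : ℕ, Comp (ρ k n) (W.res 0 k n) (ρ (k + 1) n)
  ρ_mul : ∀ (k n m : ℕ) (hnm : (n : ℤ) + 1 = m),
    MulComm (θ k) (ρ k n) (ρ k m) (W.mul 0 k hnm)

/-- The cohomology of the Du Bois complexes. `O i n = H^i(X, O_X(n))`, related to the local cohomology
`L` of `R` by `0 → H^0_𝔪(R)_n → R_n → H^0(X, O_X(n)) → H^1_𝔪(R)_n → 0` and
`H^i(X, O_X(n)) = H^{i+1}_𝔪(R)_n` for `i ≥ 1`. `W.H i k n = H^i(X_k, Ω⁰(n))`, with the exact sequences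
of the triangles `Ω⁰_{X_k}(-1) → Ω⁰_{X_k} → Ω⁰_{X_{k+1}}`. `tri.F i n = H^i(X, F(n))`, where `F` is the
fibre of `O_X → Ω⁰_X`. `rest.ρ k n` is the map `R_n → H^0(X_k, Ω⁰(n))`. -/
structure DuBoisCohomology (𝒜 : ℕ → Submodule K R) (θ : ℕ → R) (L : Tower.{u, v} K) where
  O : ℕ → ℤ → ModuleCat.{v} K
  sec : Sections 𝒜 (L.H 0 0) (L.H 1 0) (O 0)
  equiv : ∀ (i : ℕ) (n : ℤ), O (i + 1) n ≃ₗ[K] L.H (i + 2) 0 n
  W : Tower.{u, v} K
  mul_injective : ∀ (k : ℕ) {n m : ℤ} (h : n + 1 = m), Inj (W.mul 0 k h)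
  tri : Fibre O (fun i n => W.H i 0 n)
  rest : Restriction 𝒜 θ W
  ρ_zero : ∀ n : ℕ, Comp (sec.ε n) (tri.g 0 n) (rest.ρ 0 n)

/-- The theorems on the Du Bois complex. `IsDB p` means that `R_p` has Du Bois singularities.
* `hodge`: `H^i(X, O_X) → H^i(X, Ω⁰_X)` is surjective (Du Bois).
* `injectivity`: if `H^j(X, F(n)) ≠ 0`, there is a point of `X` which is not Du Bois, with local ring
  of depth at most `j` (Kovács and Schwede: `H^i_x(O_X) → H^i_x(Ω⁰_X)` is surjective).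
* `kodaira`: if `H^i(X_k, Ω⁰(n)) ≠ 0` for some `n < 0`, there is a point `p` of `X_k` with closure of
  dimension `e` such that the depth of the local ring is at most `i - e` (the cohomology sheaves
  of `RHom(Ω⁰, ω)` satisfy the vanishing theorem of Kodaira and are contained in those of `ω`). -/
structure DuBoisTheorems {𝒜 : ℕ → Submodule K R} [GradedAlgebra 𝒜] {θ : ℕ → R}
    {L : Tower.{u, v} K} (C : DuBoisCohomology.{u, v} 𝒜 θ L) (IsDB : PrimeSpectrum R → Prop) :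
    Prop where
  hodge : ∀ i : ℕ, Function.Surjective (C.tri.g i 0)
  injectivity : ∀ (j : ℕ) (n : ℤ), Nontrivial (C.tri.F j n) →
    ∃ p : PrimeSpectrum R, ¬ IsDB p ∧ ¬ DepthGE R p (j + 1)
  kodaira : ∀ (i k : ℕ) (n : ℤ), n < 0 → Nontrivial (C.W.H i k n) →
    ∃ p : PrimeSpectrum (R ⧸ firstIdeal θ k), IsPoint 𝒜 θ k p ∧ ∃ e : ℕ, e ≤ i ∧
      ringKrullDim ((R ⧸ firstIdeal θ k) ⧸ p.asIdeal) = (e + 1 : ℕ) ∧
      ¬ DepthGE (R ⧸ firstIdeal θ k) p (i - e + 1)

/-- `reg R < r`: `H^i_𝔪(R)_n = 0` for `i + n ≥ r`. -/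
def RegularityLT (L : Tower.{u, v} K) (r : ℕ) : Prop :=
  ∀ (i : ℕ) (n : ℤ), (r : ℤ) ≤ i + n → Subsingleton (L.H i 0 n)

/-- Du Bois in codimension `r - 2` (vacuous for `r = 1`). -/
def DuBoisInCodim (IsDB : PrimeSpectrum R → Prop) (r : ℕ) : Prop :=
  ∀ p : PrimeSpectrum R, p.asIdeal.height + 2 ≤ (r : ℕ∞) → IsDB p

end Run7.h30.DB
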