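import Mathlib

/-!
# Hilbert functions of the quotients of a standard graded algebra by linear forms

Let `R` be a standard graded algebra over a field and let `θ 0, θ 1, …` be linear forms. If
multiplication by `θ k` is injective in degree `n` on `R / (θ 0, …, θ (k-1))` for all `k < d` and
`n < r`, then the entries `h_j`, `j ≤ r`, of `(1 - t)^d H_R(t)` are the dimensions of the graded pieces
of `R / (θ 0, …, θ (d-1))`, in particular they are not negative.
-/

set_option autoImplicit false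

universe u v

namespace Run7.h30.DB

open DirectSum

variable {K : Type u} [Field K] {R : Type u} [CommRing R] [Algebra K R]

/-- `R` is a standard graded `K`-algebra: `R_0 = K`, the graded pieces are finite dimensional, and
`R` is generated by `R_1`. -/
structure IsStandardGraded (𝒜 : ℕ → Submodule K R) : Prop where
  zero : ∀ x ∈ 𝒜 0, ∃ c : K, x = algebraMap K R c
  fin : ∀ n, FiniteDimensional K (𝒜 n)
  gen : Algebra.adjoin K (𝒜 1 : Set R) = ⊤

/-- The coefficient `h_j` of `(1 - t)^d H_R(t)`, with `H_R(t) = ∑ dim_K R_n t^n`. -/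
noncomputable def hVector (𝒜 : ℕ → Submodule K R) (d j : ℕ) : ℤ :=
  PowerSeries.coeff j ((1 - PowerSeries.X : PowerSeries ℤ) ^ d *
    PowerSeries.mk fun n => (Module.finrank K (𝒜 n) : ℤ))

/-- The ideal `(θ 0, …, θ (k - 1))`. -/
def firstIdeal (θ : ℕ → R) (k : ℕ) : Ideal R := Ideal.span (θ '' Set.Iio k)

section

variable {𝒜 : ℕ → Submodule K R} [GradedAlgebra 𝒜] {θ : ℕ → R}

omit [Algebra K R] in
theorem firstIdeal_zero : firstIdeal θ 0 = ⊥ := by
  simp [firstIdeal]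

theorem firstIdeal_succ (k : ℕ) :
    firstIdeal θ (k + 1) = firstIdeal θ k ⊔ Ideal.span {θ k} := by
  unfold firstIdeal
  rw [← Ideal.span_union]
  congr 1
  ext x
  simp only [Set.mem_image, Set.mem_Iio, Set.mem_union, Set.mem_singleton_iff]
  constructor
  · rintro ⟨j, hj, rfl⟩
    rcases Nat.lt_succ_iff_lt_or_eq.1 hj with h | h
    · exact Or.inl ⟨j, h, rfl⟩
    · exact Or.inr (by rw [h])
  · rintro (⟨j, hj, rfl⟩ | rfl)
    · exact ⟨j, by omega, rfl⟩
    · exact ⟨k, by omega, rfl⟩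

theorem firstIdeal_le (k : ℕ) : firstIdeal θ k ≤ firstIdeal θ (k + 1) := by
  rw [firstIdeal_succ]; exact le_sup_left

theorem theta_mem (k : ℕ) : θ k ∈ firstIdeal θ (k + 1) :=
  Ideal.subset_span ⟨k, by simp, rfl⟩

theorem firstIdeal_hom (hθ : ∀ k, θ k ∈ 𝒜 1) (k : ℕ) : (firstIdeal θ k).IsHomogeneous 𝒜 := by
  apply Ideal.homogeneous_span
  rintro x ⟨j, -, rfl⟩
  exact ⟨1, hθ j⟩

/-- Homogeneous elements of `(θ 0, …, θ k)`. -/
theorem decomp_mem (hθ : ∀ k, θ k ∈ 𝒜 1) {k m : ℕ} {x : R} (hx : x ∈ 𝒜 m)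
    (h : x ∈ firstIdeal θ (k + 1)) :
    (m = 0 ∧ x ∈ firstIdeal θ k) ∨ ∃ n, m = n + 1 ∧ ∃ y ∈ firstIdeal θ k, y ∈ 𝒜 m ∧
      ∃ z ∈ 𝒜 n, x = y + θ k * z := by
  rw [firstIdeal_succ, Submodule.mem_sup] at h
  obtain ⟨y, hy, w, hw, rfl⟩ := h
  rw [Ideal.mem_span_singleton'] at hw
  obtain ⟨z, rfl⟩ := hw
  have e : ((decompose 𝒜 (y + z * θ k)) m : R) = y + z * θ k := decompose_of_mem_same 𝒜 hx
  rw [decompose_add, DirectSum.add_apply, Submodule.coe_add, mul_comm z (θ k)] at e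
  have hy' := firstIdeal_hom hθ k m hy
  cases m with
  | zero =>
    left
    refine ⟨rfl, ?_⟩
    rw [coe_decompose_mul_of_left_mem_of_not_le 𝒜 (hθ k) (by omega), add_zero] at e
    rw [mul_comm z (θ k), ← e]
    exact hy'
  | succ n =>
    right
    refine ⟨n, rfl, _, hy', SetLike.coe_mem _, (decompose 𝒜 z n : R), SetLike.coe_mem _, ?_⟩
    rw [coe_decompose_mul_of_left_mem_of_le 𝒜 (hθ k) (by omega), Nat.add_sub_cancel] at e
    rw [mul_comm z (θ k), ← e]

/-- The elements of degree `n` in `(θ 0, …, θ (k - 1))`. -/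
def piece (𝒜 : ℕ → Submodule K R) (θ : ℕ → R) (k n : ℕ) : Submodule K R :=
  (firstIdeal θ k).restrictScalars K ⊓ 𝒜 n

omit [GradedAlgebra 𝒜] in
theorem mem_piece {k n : ℕ} {x : R} : x ∈ piece 𝒜 θ k n ↔ x ∈ firstIdeal θ k ∧ x ∈ 𝒜 n := Iff.rfl

/-- The dimension of the piece of degree `n` of `R / (θ 0, …, θ (k - 1))`. -/
noncomputable def hf (𝒜 : ℕ → Submodule K R) (θ : ℕ → R) (k n : ℕ) : ℤ :=
  (Module.finrank K (𝒜 n) : ℤ) - Module.finrank K (piece 𝒜 θ k n)

theorem piece_zero_zero (hθ : ∀ k, θ k ∈ 𝒜 1) (k : ℕ) : piece 𝒜 θ k 0 = ⊥ := by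
  induction k with
  | zero =>
    rw [eq_bot_iff]
    intro x hx
    rw [mem_piece, firstIdeal_zero] at hx
    exact hx.1
  | succ k ih =>
    rw [eq_bot_iff]
    intro x hx
    rcases decomp_mem hθ (mem_piece.1 hx).2 (mem_piece.1 hx).1 with ⟨-, h⟩ | ⟨n, h, -⟩
    · rw [← ih]
      exact mem_piece.2 ⟨h, (mem_piece.1 hx).2⟩
    · omega

theorem hf_zero (hθ : ∀ k, θ k ∈ 𝒜 1) (k : ℕ) : hf 𝒜 θ (k + 1) 0 = hf 𝒜 θ k 0 := by
  unfold hf
  rw [piece_zero_zero hθ, piece_zero_zero hθ]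

theorem hf_succ (hA : IsStandardGraded 𝒜) (hθ : ∀ k, θ k ∈ 𝒜 1) (k n : ℕ)
    (h : ∀ x ∈ 𝒜 n, θ k * x ∈ firstIdeal θ k → x ∈ firstIdeal θ k) :
    hf 𝒜 θ (k + 1) (n + 1) = hf 𝒜 θ k (n + 1) - hf 𝒜 θ k n := by
  have := hA.fin
  have : ∀ j m, FiniteDimensional K (piece 𝒜 θ j m) := fun j m =>
    Submodule.finiteDimensional_of_le (inf_le_right : piece 𝒜 θ j m ≤ 𝒜 m)
  set J : Submodule K R := (firstIdeal θ k).restrictScalars K with hJ
  have hmul : ∀ x ∈ 𝒜 n, θ k * x ∈ 𝒜 (n + 1) := fun x hx => by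
    rw [add_comm n 1]; exact SetLike.mul_mem_graded (hθ k) hx
  let φ : 𝒜 n →ₗ[K] (R ⧸ J) := (J.mkQ ∘ₗ LinearMap.mulLeft K (θ k)) ∘ₗ (𝒜 n).subtype
  have hφ : ∀ x : 𝒜 n, φ x = J.mkQ (θ k * x) := fun x => rfl
  let ψ : piece 𝒜 θ (k + 1) (n + 1) →ₗ[K] (R ⧸ J) :=
    J.mkQ ∘ₗ (piece 𝒜 θ (k + 1) (n + 1)).subtype
  have hψ : ∀ x, ψ x = J.mkQ (x : R) := fun x => rfl
  have hr : LinearMap.range φ = LinearMap.range ψ := by
    ext y
    simp only [LinearMap.mem_range]
    constructor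
    · rintro ⟨x, rfl⟩
      refine ⟨⟨θ k * x, mem_piece.2 ⟨?_, hmul x x.2⟩⟩, rfl⟩
      exact Ideal.mul_mem_right _ _ (theta_mem k)
    · rintro ⟨⟨x, hx⟩, rfl⟩
      rcases decomp_mem hθ (mem_piece.1 hx).2 (mem_piece.1 hx).1 with ⟨h0, -⟩ |
        ⟨n', h0, y, hy, hy', z, hz, hxz⟩
      · omega
      · obtain rfl : n = n' := by omega
        refine ⟨⟨z, hz⟩, ?_⟩
        rw [hφ, hψ]
        change J.mkQ (θ k * z) = J.mkQ x
        rw [hxz, map_add]
        have : J.mkQ y = 0 := by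
          rw [Submodule.mkQ_apply, Submodule.Quotient.mk_eq_zero]
          exact hy
        rw [this, zero_add]
  have k1 : Module.finrank K (LinearMap.ker φ) = Module.finrank K (piece 𝒜 θ k n) := by
    have : (LinearMap.ker φ).map (𝒜 n).subtype = piece 𝒜 θ k n := by
      ext x
      simp only [Submodule.mem_map, LinearMap.mem_ker]
      constructor
      · rintro ⟨x, hx, rfl⟩
        rw [hφ, Submodule.mkQ_apply, Submodule.Quotient.mk_eq_zero] at hx
        exact mem_piece.2 ⟨h x x.2 hx, x.2⟩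
      · intro hx
        refine ⟨⟨x, (mem_piece.1 hx).2⟩, ?_, rfl⟩
        rw [hφ, Submodule.mkQ_apply, Submodule.Quotient.mk_eq_zero]
        exact Ideal.mul_mem_left _ _ (mem_piece.1 hx).1
    rw [← this]
    exact (LinearEquiv.finrank_eq (Submodule.equivMapOfInjective _ (𝒜 n).injective_subtype _))
  have k2 : Module.finrank K (LinearMap.ker ψ) = Module.finrank K (piece 𝒜 θ k (n + 1)) := by
    have : (LinearMap.ker ψ).map (piece 𝒜 θ (k + 1) (n + 1)).subtype = piece 𝒜 θ k (n + 1) := by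
      ext x
      simp only [Submodule.mem_map, LinearMap.mem_ker]
      constructor
      · rintro ⟨x, hx, rfl⟩
        rw [hψ, Submodule.mkQ_apply, Submodule.Quotient.mk_eq_zero] at hx
        exact mem_piece.2 ⟨hx, (mem_piece.1 x.2).2⟩
      · intro hx
        refine ⟨⟨x, mem_piece.2 ⟨firstIdeal_le k (mem_piece.1 hx).1, (mem_piece.1 hx).2⟩⟩, ?_, rfl⟩
        rw [hψ, Submodule.mkQ_apply, Submodule.Quotient.mk_eq_zero]
        exact (mem_piece.1 hx).1
    rw [← this]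
    exact (LinearEquiv.finrank_eq (Submodule.equivMapOfInjective _
      (Submodule.injective_subtype _) _))
  have r1 := LinearMap.finrank_range_add_finrank_ker φ
  have r2 := LinearMap.finrank_range_add_finrank_ker ψ
  rw [hr, k1] at r1
  rw [k2] at r2
  unfold hf
  omega

theorem coeff_one_sub_X_mul (G : PowerSeries ℤ) (j : ℕ) :
    PowerSeries.coeff (j + 1) ((1 - PowerSeries.X) * G) =
      PowerSeries.coeff (j + 1) G - PowerSeries.coeff j G := by
  rw [sub_mul, one_mul, map_sub, PowerSeries.coeff_succ_X_mul]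

theorem coeff_zero_one_sub_X_mul (G : PowerSeries ℤ) :
    PowerSeries.coeff 0 ((1 - PowerSeries.X) * G) = PowerSeries.coeff 0 G := by
  rw [sub_mul, one_mul, map_sub, PowerSeries.coeff_zero_X_mul, sub_zero]

theorem coeff_pow (hA : IsStandardGraded 𝒜) (hθ : ∀ k, θ k ∈ 𝒜 1) (d r : ℕ)
    (h : ∀ k < d, ∀ n < r, ∀ x ∈ 𝒜 n, θ k * x ∈ firstIdeal θ k → x ∈ firstIdeal θ k) :
    ∀ k ≤ d, ∀ j ≤ r, PowerSeries.coeff j ((1 - PowerSeries.X : PowerSeries ℤ) ^ k *
      PowerSeries.mk fun n => (Module.finrank K (𝒜 n) : ℤ)) = hf 𝒜 θ k j := by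
  intro k
  induction k with
  | zero =>
    intro _ j _
    rw [pow_zero, one_mul, PowerSeries.coeff_mk]
    have : piece 𝒜 θ 0 j = ⊥ := by
      rw [eq_bot_iff]
      intro x hx
      rw [mem_piece, firstIdeal_zero] at hx
      exact hx.1
    unfold hf
    rw [this]
    simp
  | succ k ih =>
    intro hk j hj
    rw [pow_succ', mul_assoc]
    cases j with
    | zero => rw [coeff_zero_one_sub_X_mul, ih (by omega) 0 hj, hf_zero hθ]
    | succ n =>
      rw [coeff_one_sub_X_mul, ih (by omega) _ hj, ih (by omega) n (by omega),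
        hf_succ hA hθ k n (h k (by omega) n (by omega))]

theorem hVector_nonneg (hA : IsStandardGraded 𝒜) (hθ : ∀ k, θ k ∈ 𝒜 1) (d r : ℕ)
    (h : ∀ k < d, ∀ n < r, ∀ x ∈ 𝒜 n, θ k * x ∈ firstIdeal θ k → x ∈ firstIdeal θ k)
    (j : ℕ) (hj : j ≤ r) : 0 ≤ hVector 𝒜 d j := by
  have := hA.fin
  unfold hVector
  rw [coeff_pow hA hθ d r h d le_rfl j hj]
  unfold hf
  have h2 : Module.finrank K (piece 𝒜 θ d j) ≤ Module.finrank K (𝒜 j) := Submodule.finrank_mono inf_le_right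
  omega

/-- If the kernels vanish in all degrees, the sequence is regular. -/
theorem regular_of_kernels [Nontrivial R] (hθ : ∀ k, θ k ∈ 𝒜 1) (d : ℕ)
    (h : ∀ k < d, ∀ n, ∀ x ∈ 𝒜 n, θ k * x ∈ firstIdeal θ k → x ∈ firstIdeal θ k) :
    RingTheory.Sequence.IsRegular R (List.ofFn fun i : Fin d => θ i) := by
  have hlist : ∀ i ≤ d, Ideal.ofList ((List.ofFn fun i : Fin d => θ i).take i) =
      firstIdeal θ i := by
    intro i hi
    unfold Ideal.ofList firstIdeal
    congr 1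
    ext x
    simp only [Set.mem_ofPred_eq, Set.mem_image, Set.mem_Iio]
    rw [List.mem_take_iff_getElem]
    simp only [List.length_ofFn, List.getElem_ofFn]
    constructor
    · rintro ⟨j, hj, rfl⟩
      exact ⟨j, by omega, rfl⟩
    · rintro ⟨j, hj, rfl⟩
      exact ⟨j, by omega, rfl⟩
  have hall : ∀ k < d, ∀ x, θ k * x ∈ firstIdeal θ k → x ∈ firstIdeal θ k := by
    intro k hk x hx
    rw [(firstIdeal_hom hθ k).mem_iff] 
    intro n
    apply h k hk n _ (SetLike.coe_mem _)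
    have := firstIdeal_hom hθ k (n + 1) hx
    rwa [coe_decompose_mul_of_left_mem_of_le 𝒜 (hθ k) (by omega), Nat.add_sub_cancel] at this
  refine ⟨⟨fun i hi => ?_⟩, ?_⟩
  · rw [List.length_ofFn] at hi
    rw [hlist i hi.le]
    simp only [List.getElem_ofFn]
    intro x y hxy
    obtain ⟨x, rfl⟩ := Submodule.Quotient.mk_surjective _ x
    obtain ⟨y, rfl⟩ := Submodule.Quotient.mk_surjective _ y
    change θ i • Submodule.Quotient.mk x = θ i • Submodule.Quotient.mk y at hxy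
    rw [← Submodule.Quotient.mk_smul, ← Submodule.Quotient.mk_smul, Submodule.Quotient.eq] at hxy
    rw [Submodule.Quotient.eq]
    have e : (firstIdeal θ i • ⊤ : Submodule R R) = firstIdeal θ i := by
      simp
    rw [e] at hxy ⊢
    apply hall i hi
    rwa [mul_sub]
  · intro e
    have e2 : Ideal.ofList (List.ofFn fun i : Fin d => θ i) = firstIdeal θ d := by
      rw [← hlist d le_rfl, List.take_of_length_le (by simp)]
    rw [e2] at e
    have e3 : (firstIdeal θ d • ⊤ : Submodule R R) = firstIdeal θ d := by simp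
    rw [e3] at e
    have h1 : (1 : R) ∈ piece 𝒜 θ d 0 := by
      refine mem_piece.2 ⟨?_, SetLike.GradedOne.one_mem⟩
      have : (1 : R) ∈ (⊤ : Submodule R R) := trivial
      rw [e] at this
      exact this
    rw [piece_zero_zero hθ] at h1
    exact one_ne_zero ((Submodule.mem_bot K).1 h1)

end

end Run7.h30.DB
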