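import Pool.Agent.Run7.h30.DB.Defs

/-!
# The kernels of general linear forms on `(S_r)` algebras which are Du Bois in codimension `r - 2`
-/

set_option autoImplicit false

universe u v

namespace Run7.h30.DB

section aux

theorem sub_mid {A B C : Type*} [Zero A] [Zero B] [Zero C] {f : A → B} {g : B → C}
    (h : Function.Exact f g) (_ : f 0 = 0) (hA : Subsingleton A) (hC : Subsingleton C) :
    Subsingleton B := by
  refine ⟨fun x y => ?_⟩
  obtain ⟨a, rfl⟩ := (h x).1 (Subsingleton.elim _ _)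
  obtain ⟨b, rfl⟩ := (h y).1 (Subsingleton.elim _ _)
  rw [Subsingleton.elim a 0, Subsingleton.elim b 0]

theorem sub_surj {A B : Type*} {f : A → B} (h : Function.Surjective f) (hA : Subsingleton A) :
    Subsingleton B := h.subsingleton

end aux

variable {K : Type u} [Field K] {R : Type u} [CommRing R] [Algebra K R]
  {𝒜 : ℕ → Submodule K R} [GradedAlgebra 𝒜] {d : ℕ} {θ : ℕ → R}

theorem Tower.vanish (T : Tower.{u, v} K) {i k : ℕ} {n m : ℤ} (h : n + 1 = m)
    (h1 : Subsingleton (T.H i k m)) (h2 : Subsingleton (T.H (i + 1) k n)) :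
    Subsingleton (T.H i (k + 1) m) :=
  sub_mid (T.exact_δ i k h) (map_zero _) h1 h2

section CM

variable (L : LocalCohomology.{u, v} 𝒜 d θ)

/-- Kernels in degrees in which `H^0_𝔪` vanishes. -/
theorem kernel_of_local (hθ : GeneralForms 𝒜 d θ) (k n : ℕ) (h : Subsingleton (L.H 0 k n)) :
    ∀ x ∈ 𝒜 n, θ k * x ∈ firstIdeal θ k → x ∈ firstIdeal θ k := fun x hx h' =>
  L.torsion k n h x hx (hθ.almost k n x hx h')

theorem reg_vanish (r : ℕ) (h : RegularityLT L.toTower r) :
    ∀ (k i : ℕ) (n : ℤ), (r : ℤ) ≤ i + n → Subsingleton (L.H i k n) := by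
  intro k
  induction k with
  | zero => exact h
  | succ k ih =>
    intro i n hin
    exact L.toTower.vanish (n := n - 1) (by omega) (ih i n hin) (ih (i + 1) (n - 1) (by push_cast; omega))

theorem depth_vanish (c : ℕ) (h : ∀ (i : ℕ) (n : ℤ), i < c → Subsingleton (L.H i 0 n)) :
    ∀ (k i : ℕ) (n : ℤ), i + k < c → Subsingleton (L.H i k n) := by
  intro k
  induction k with
  | zero => exact fun i n hi => h i n (by omega)
  | succ k ih =>
    intro i n hin
    exact L.toTower.vanish (n := n - 1) (by omega) (ih i n (by omega)) (ih (i + 1) (n - 1) (by omega))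

theorem serre_vertex {r : ℕ} (hS : SerreCondition R r) (i : ℕ) (n : ℤ) (hi : i < r) (hd : i < d) :
    Subsingleton (L.H i 0 n) := by
  obtain ⟨m, -, hm, h⟩ := L.vertex
  apply h
  apply hS
  · omega
  · rw [hm]; exact_mod_cast hd

end CM

section main

variable {L : LocalCohomology.{u, v} 𝒜 d θ}
  (C : DuBoisCohomology.{u, v} 𝒜 θ L.toTower) {IsDB : PrimeSpectrum R → Prop}

theorem serre_two {r : ℕ} (hr : 2 ≤ r) (hS : SerreCondition R r) : SerreCondition R 2 :=
  fun p n hn => hS p n (hn.trans hr)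

/-- Vanishing in negative degrees. -/
theorem van_neg (hθ : GeneralForms 𝒜 d θ) (hC : DuBoisTheorems C IsDB) {r : ℕ} (hr : 2 ≤ r)
    (hS : SerreCondition R r) (i k : ℕ) (n : ℤ) (hn : n < 0) (hi : i < r) (hd : i + k + 1 < d) :
    Subsingleton (C.W.H i k n) := by
  by_contra hne
  obtain ⟨p, hp, e, he, hdim, hdep⟩ := hC.kodaira i k n hn (not_subsingleton_iff_nontrivial.1 hne)
  have h1 := hθ.equidim (serre_two hr hS) k p hp e hdim
  apply hdep
  apply hθ.bertini r hS k p hp
  · omega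
  · by_contra hlt
    rw [not_le] at hlt
    have h2 : p.asIdeal.height ≤ (i - e : ℕ) := by
      have : p.asIdeal.height < ((i - e : ℕ) : ℕ∞) + 1 := by exact_mod_cast hlt
      exact Order.le_of_lt_add_one this
    have h3 : (d : ℕ∞) ≤ (i - e : ℕ) + (e + 1 + k : ℕ) := by
      rw [← h1]; gcongr
    have h4 : d ≤ (i - e) + (e + 1 + k) := by exact_mod_cast h3
    omega

/-- The cohomology of the fibre of `O_X → Ω⁰_X` starts in degree `r - 1`. -/
theorem van_F (hC : DuBoisTheorems C IsDB) {r : ℕ} (hS : SerreCondition R r)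
    (hDB : DuBoisInCodim IsDB r) (j : ℕ) (n : ℤ) (hj : j + 2 ≤ r) : Subsingleton (C.tri.F j n) := by
  by_contra hne
  obtain ⟨p, hp, hdep⟩ := hC.injectivity j n (not_subsingleton_iff_nontrivial.1 hne)
  apply hdep
  apply hS
  · omega
  · by_contra hlt
    rw [not_le] at hlt
    have h2 : p.asIdeal.height ≤ (j : ℕ) := by
      have : p.asIdeal.height < (j : ℕ∞) + 1 := by exact_mod_cast hlt
      exact Order.le_of_lt_add_one this
    apply hp
    apply hDB
    calc p.asIdeal.height + 2 ≤ (j : ℕ∞) + 2 := by gcongr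
      _ ≤ (r : ℕ∞) := by exact_mod_cast hj

theorem van_O {r : ℕ} (hS : SerreCondition R r) (hrd : r < d) (i : ℕ) (n : ℤ) (hi : 1 ≤ i)
    (hir : i + 1 < r) : Subsingleton (C.O i n) := by
  obtain ⟨j, rfl⟩ : ∃ j, i = j + 1 := ⟨i - 1, by omega⟩
  have := serre_vertex L hS (j + 2) n (by omega) (by omega)
  exact (C.equiv j n).toEquiv.subsingleton

/-- Vanishing on `X`. -/
theorem van_zero (hC : DuBoisTheorems C IsDB) {r : ℕ} (hS : SerreCondition R r)
    (hDB : DuBoisInCodim IsDB r) (hrd : r < d) (i : ℕ) (n : ℤ) (hi : 1 ≤ i) (hn : 0 ≤ n)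
    (hin : (i : ℤ) + n + 2 ≤ r) : Subsingleton (C.W.H i 0 n) := by
  have h1 := van_O C hS hrd i n hi (by omega)
  rcases eq_or_lt_of_le hn with h0 | h0
  · subst h0
    exact sub_surj (hC.hodge i) h1
  · exact sub_mid (C.tri.exact_h i n) (map_zero _) h1 (van_F C hC hS hDB (i + 1) n (by omega))

/-- Vanishing on `X_k`. -/
theorem van (hθ : GeneralForms 𝒜 d θ) (hC : DuBoisTheorems C IsDB) {r : ℕ} (hr : 2 ≤ r)
    (hS : SerreCondition R r) (hDB : DuBoisInCodim IsDB r) (hrd : r < d) :
    ∀ (k i : ℕ) (n : ℤ), 1 ≤ i → -1 ≤ n → (i : ℤ) + n + 2 ≤ r → i + k + 1 < d →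
      Subsingleton (C.W.H i k n) := by
  intro k
  induction k with
  | zero =>
    intro i n hi hn hin hd
    rcases eq_or_lt_of_le hn with h0 | h0
    · exact van_neg C hθ hC hr hS i 0 n (by omega) (by omega) hd
    · exact van_zero C hC hS hDB hrd i n hi (by omega) hin
  | succ k ih =>
    intro i n hi hn hin hd
    rcases eq_or_lt_of_le hn with h0 | h0
    · exact van_neg C hθ hC hr hS i (k + 1) n (by omega) (by omega) hd
    · exact C.W.vanish (n := n - 1) (by omega) (ih i n hi hn hin (by omega))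
        (ih (i + 1) (n - 1) (by omega) (by omega) (by push_cast; omega) (by omega))

/-- The maps `R_n → H^0(X_k, Ω⁰(n))` vanish on `(θ 0, …, θ (k - 1))`. -/
theorem rho_firstIdeal (hθ : ∀ k, θ k ∈ 𝒜 1) (k : ℕ) : ∀ (n : ℕ) (x : 𝒜 n),
    (x : R) ∈ firstIdeal θ k → C.rest.ρ k n x = 0 := by
  induction k with
  | zero =>
    intro n x hx
    rw [firstIdeal_zero] at hx
    have : x = 0 := Subtype.ext hx
    rw [this, map_zero]
  | succ k ih =>
    intro n x hx
    rcases decomp_mem hθ x.2 hx with ⟨-, h⟩ | ⟨m, rfl, y, hy, hy', z, hz, hxz⟩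
    · rw [← C.rest.ρ_succ, ih n x h, map_zero]
    · have hz' : θ k * z ∈ 𝒜 (m + 1) := by
        rw [add_comm m 1]; exact SetLike.mul_mem_graded (hθ k) hz
      have e : x = ⟨y, hy'⟩ + ⟨θ k * z, hz'⟩ := Subtype.ext hxz
      rw [e, map_add, ← C.rest.ρ_succ, ← C.rest.ρ_succ, ih _ ⟨y, hy'⟩ hy, map_zero, zero_add,
        C.rest.ρ_mul k m (m + 1) (by push_cast; ring) ⟨z, hz⟩ ⟨θ k * z, hz'⟩ rfl]
      exact (C.W.exact_res 0 k (by push_cast; ring)).apply_apply_eq_zero _

theorem main_induction (hθ : GeneralForms 𝒜 d θ) (hC : DuBoisTheorems C IsDB) {r : ℕ} (hr : 2 ≤ r)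
    (hS : SerreCondition R r) (hDB : DuBoisInCodim IsDB r) (hrd : r < d) :
    ∀ k : ℕ, (k + 1 < d → ∀ n : ℕ, n + 2 ≤ r → Function.Surjective (C.rest.ρ k n)) ∧
      (k < d → ∀ n : ℕ, n < r → ∀ x : 𝒜 n, C.rest.ρ k n x = 0 → (x : R) ∈ firstIdeal θ k) := by
  intro k
  induction k with
  | zero =>
    refine ⟨fun _ n hn => ?_, fun _ n hn x hx => ?_⟩
    · have h1 : Function.Surjective (C.sec.ε n) := by
        have := serre_vertex L hS 1 (n : ℤ) (by omega) (by omega)
        intro y
        exact (C.sec.exact_κ n y).1 (Subsingleton.elim _ _)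
      have h2 : Function.Surjective (C.tri.g 0 n) := by
        rcases Nat.eq_zero_or_pos n with h0 | h0
        · subst h0
          exact hC.hodge 0
        · have := van_F C hC hS hDB 1 (n : ℤ) (by omega)
          intro y
          exact (C.tri.exact_h 0 n y).1 (Subsingleton.elim _ _)
      intro y
      obtain ⟨z, rfl⟩ := h2 y
      obtain ⟨x, rfl⟩ := h1 z
      exact ⟨x, (C.ρ_zero n x).symm⟩
    · rw [← C.ρ_zero] at hx
      obtain ⟨a, ha⟩ := (C.tri.exact_g 0 n _).1 hx
      have := van_F C hC hS hDB 0 (n : ℤ) (by omega)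
      rw [Subsingleton.elim a 0, map_zero] at ha
      obtain ⟨b, hb⟩ := (C.sec.exact_ε n _).1 ha.symm
      have := serre_vertex L hS 0 (n : ℤ) (by omega) (by omega)
      rw [Subsingleton.elim b 0, map_zero] at hb
      rw [← hb]
      exact Submodule.zero_mem _
  | succ k ih =>
    refine ⟨fun hk n hn => ?_, fun hk n hn x hx => ?_⟩
    · have h1 := ih.1 (by omega) n hn
      have h2 : Function.Surjective (C.W.res 0 k n) := by
        have hv := van C hθ hC hr hS hDB hrd k 1 ((n : ℤ) - 1) le_rfl (by omega)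
          (by push_cast; omega) (by omega)
        intro y
        have := (C.W.exact_δ 0 k (n := (n : ℤ) - 1) (m := n) (by ring) y)
        exact this.1 (Subsingleton.elim _ _)
      intro y
      obtain ⟨z, rfl⟩ := h2 y
      obtain ⟨x, rfl⟩ := h1 z
      exact ⟨x, (C.rest.ρ_succ k n x).symm⟩
    · rw [← C.rest.ρ_succ] at hx
      cases n with
      | zero =>
        obtain ⟨w, hw⟩ := (C.W.exact_res 0 k (n := -1) (m := ((0 : ℕ) : ℤ)) (by norm_num) _).1 hx
        have := van_neg C hθ hC hr hS 0 k (-1) (by norm_num) (by omega) (by omega)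
        rw [Subsingleton.elim w 0, map_zero] at hw
        exact firstIdeal_le k (ih.2 (by omega) 0 (by omega) x hw.symm)
      | succ m =>
        have hm : (m : ℤ) + 1 = ((m + 1 : ℕ) : ℤ) := by push_cast; ring
        obtain ⟨w, hw⟩ := (C.W.exact_res 0 k hm _).1 hx
        obtain ⟨y, rfl⟩ := ih.1 (by omega) m (by omega) w
        have hy : θ k * (y : R) ∈ 𝒜 (m + 1) := by
          rw [add_comm m 1]; exact SetLike.mul_mem_graded (hθ.mem k) y.2
        have e := C.rest.ρ_mul k m (m + 1) hm y ⟨θ k * y, hy⟩ rfl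
        rw [← e] at hw
        have h0 : C.rest.ρ k (m + 1) (x - ⟨θ k * y, hy⟩) = 0 := by rw [map_sub, hw, sub_self]
        have h1 := ih.2 (by omega) (m + 1) hn _ h0
        have h2 : (x : R) = (x - θ k * y) + θ k * y := by ring
        rw [h2]
        exact Ideal.add_mem _ (firstIdeal_le k h1) (Ideal.mul_mem_right _ _ (theta_mem k))

/-- The kernels of general linear forms vanish in degrees less than `r`. -/
theorem kernels (hA : IsStandardGraded 𝒜) (hθ : GeneralForms 𝒜 d θ) (hC : DuBoisTheorems C IsDB)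
    {r : ℕ} (hr : 1 ≤ r) (hS : SerreCondition R r) (hDB : DuBoisInCodim IsDB r) :
    ∀ k < d, ∀ n < r, ∀ x ∈ 𝒜 n, θ k * x ∈ firstIdeal θ k → x ∈ firstIdeal θ k := by
  intro k hk n hn x hx h
  rcases Nat.lt_or_ge r d with hrd | hrd
  · rcases Nat.lt_or_ge r 2 with hr2 | hr2
    · obtain rfl : n = 0 := by omega
      obtain ⟨c, rfl⟩ := hA.zero x hx
      by_cases hc : c = 0
      · subst hc; rw [map_zero]; exact Submodule.zero_mem _
      · exfalso
        apply hθ.new k hk
        have h1 : θ k = (θ k * algebraMap K R c) * algebraMap K R c⁻¹ := by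
          rw [mul_assoc, ← map_mul, mul_inv_cancel₀ hc, map_one, mul_one]
        rw [h1]
        exact Ideal.mul_mem_right _ _ h
    · have hm : (n : ℤ) + 1 = ((n + 1 : ℕ) : ℤ) := by push_cast; ring
      have hy : θ k * x ∈ 𝒜 (n + 1) := by
        rw [add_comm n 1]; exact SetLike.mul_mem_graded (hθ.mem k) hx
      have h1 := rho_firstIdeal C hθ.mem k (n + 1) ⟨θ k * x, hy⟩ h
      rw [C.rest.ρ_mul k n (n + 1) hm ⟨x, hx⟩ ⟨θ k * x, hy⟩ rfl] at h1
      have h2 : C.rest.ρ k n ⟨x, hx⟩ = 0 := C.mul_injective k hm (by rw [h1, map_zero])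
      exact (main_induction C hθ hC hr2 hS hDB hrd k).2 hk n hn ⟨x, hx⟩ h2
  · exact kernel_of_local L hθ k n (depth_vanish L d
      (fun i n hi => serre_vertex L hS i n (by omega) hi) k 0 n (by omega)) x hx h

theorem answer (hA : IsStandardGraded 𝒜) (hd : ringKrullDim R = d) (hθ : GeneralForms 𝒜 d θ)
    (hC : DuBoisTheorems C IsDB) {r : ℕ} (hr : 1 ≤ r) (hS : SerreCondition R r)
    (hDB : DuBoisInCodim IsDB r) :
    (∀ j ≤ r, 0 ≤ hVector 𝒜 d j) ∧
      (RegularityLT L.toTower r → RingTheory.Sequence.IsRegular R (List.ofFn fun i : Fin d => θ i)) := by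
  have hk := kernels C hA hθ hC hr hS hDB
  refine ⟨fun j hj => hVector_nonneg hA hθ.mem d r hk j hj, fun hreg => ?_⟩
  have : Nontrivial R := by
    by_contra hne
    rw [not_nontrivial_iff_subsingleton] at hne
    rw [ringKrullDim_eq_bot_of_subsingleton] at hd
    exact absurd hd (by simp)
  apply regular_of_kernels hθ.mem d
  intro k hkd n x hx h
  rcases Nat.lt_or_ge n r with hn | hn
  · exact hk k hkd n hn x hx h
  · exact kernel_of_local L hθ k n (reg_vanish L r hreg k 0 n (by push_cast; omega)) x hx h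

end main

end Run7.h30.DB
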